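import Pool.Agent.LPW.StmtsC

/-!
Squad LPW, row KRB: small vectors in the kernel of an integral matrix.
-/

set_option autoImplicit false

namespace Pool.Agent.LPW.H16

/-- There is a non-zero minor of size `r`. -/
def Mn {L n : ℕ} (A : Fin n → Fin L → ℤ) (r : ℕ) : Prop :=
  ∃ (I : Fin r → Fin n) (J : Fin r → Fin L),
    Matrix.det (Matrix.of fun a b => A (I a) (J b)) ≠ 0

theorem mn_inj {L n r : ℕ} (A : Fin n → Fin L → ℤ) (I : Fin r → Fin n) (J : Fin r → Fin L)
    (h : Matrix.det (Matrix.of fun a b => A (I a) (J b)) ≠ 0) : Function.Injective J := by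
  intro a b hab
  by_contra hne
  exact h (Matrix.det_zero_of_column_eq hne (fun k => by
    show A (I k) (J a) = A (I k) (J b)
    rw [hab]))

theorem krb : KrbStmt := by
  classical
  intro L W n A hW hA hy
  obtain ⟨y, hy0, hy1⟩ := hy
  have h0 : Mn A 0 := ⟨Fin.elim0, Fin.elim0, by rw [Matrix.det_isEmpty]; exact one_ne_zero⟩
  have hL : ¬ Mn A L := by
    rintro ⟨I, J, hd⟩
    have hJ := mn_inj A I J hd
    have hJb : Function.Bijective J := Finite.injective_iff_bijective.mp hJ
    have h1 : (Matrix.of fun a b => (A (I a) (J b) : ℚ)).det ≠ 0 := by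
      have e : (Matrix.of fun a b => (A (I a) (J b) : ℚ)) =
          (Matrix.of fun a b => A (I a) (J b)).map (Int.castRingHom ℚ) := by
        ext a b; rfl
      rw [e, ← RingHom.mapMatrix_apply, ← RingHom.map_det]
      simpa using hd
    have h2 := Matrix.eq_zero_of_mulVec_eq_zero h1 (v := fun b => y (J b)) (by
      ext a
      show ∑ b, (A (I a) (J b) : ℚ) * y (J b) = 0
      rw [← hy1 (I a)]
      exact hJb.sum_comp (fun j => (A (I a) j : ℚ) * y j))
    apply hy0
    ext j
    obtain ⟨b, rfl⟩ := hJb.2 j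
    exact congrFun h2 b
  -- the size of the largest non-zero minor
  obtain ⟨r, hr1, hr2, hrL⟩ : ∃ r, Mn A r ∧ ¬ Mn A (r + 1) ∧ r < L := by
    have hex : ∃ k, ¬ Mn A k := ⟨L, hL⟩
    have hk := Nat.find_spec hex
    have hkL : Nat.find hex ≤ L := Nat.find_min' hex hL
    have hk0 : Nat.find hex ≠ 0 := fun h => hk (by rw [h]; exact h0)
    refine ⟨Nat.find hex - 1, ?_, ?_, by omega⟩
    · exact not_not.mp (Nat.find_min hex (m := Nat.find hex - 1) (by omega))
    · rw [Nat.sub_add_cancel (Nat.one_le_iff_ne_zero.mpr hk0)]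
      exact hk
  obtain ⟨I, J, hd⟩ := hr1
  have hJ := mn_inj A I J hd
  obtain ⟨j₀, hj₀⟩ : ∃ j₀, ∀ a, J a ≠ j₀ := by
    by_contra hcon
    push Not at hcon
    have := Fintype.card_le_of_surjective J hcon
    simp only [Fintype.card_fin] at this
    omega
  obtain ⟨J', hJ'⟩ : ∃ J' : Fin (r + 1) → Fin L, J' = Fin.cons j₀ J := ⟨_, rfl⟩
  have hJ'0 : J' 0 = j₀ := by rw [hJ']; rfl
  have hJ's : ∀ a : Fin r, J' a.succ = J a := fun a => by rw [hJ']; rfl
  have hJ'i : Function.Injective J' := by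
    intro a b hab
    refine Fin.cases (fun hab => ?_) (fun a hab => ?_) a hab
    · refine Fin.cases (fun _ => rfl) (fun b hab => ?_) b hab
      rw [hJ'0, hJ's] at hab
      exact absurd hab.symm (hj₀ b)
    · refine Fin.cases (fun hab => ?_) (fun b hab => ?_) b hab
      · rw [hJ'0, hJ's] at hab
        exact absurd hab (hj₀ a)
      · rw [hJ's, hJ's] at hab
        rw [hJ hab]
  obtain ⟨w, hw⟩ : ∃ w : Fin (r + 1) → ℤ, w = fun (b : Fin (r + 1)) => (-1) ^ (b : ℕ) *
      Matrix.det (Matrix.of fun a c => A (I a) (J' (b.succAbove c))) := ⟨_, rfl⟩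
  have hrow : ∀ i, ∑ b, A i (J' b) * w b = 0 := by
    intro i
    have h1 : Matrix.det (Matrix.of fun a b => A ((Fin.cons i I : Fin (r + 1) → Fin n) a)
        (J' b)) = 0 := by
      by_contra hne
      exact hr2 ⟨_, _, hne⟩
    rw [Matrix.det_succ_row_zero] at h1
    rw [← h1]
    refine Finset.sum_congr rfl fun b _ => ?_
    rw [hw]
    show A i (J' b) * ((-1) ^ (b : ℕ) * _) = (-1) ^ (b : ℕ) * A i (J' b) * _
    rw [← mul_assoc, mul_comm (A i (J' b))]
    rfl
  have hwb : ∀ b, |w b| ≤ L.factorial * (W : ℤ) ^ L := by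
    intro b
    have h1 : |Matrix.det (Matrix.of fun a c => A (I a) (J' (b.succAbove c)))| ≤
        r.factorial * (W : ℤ) ^ r := by
      have := Matrix.det_le (A := Matrix.of fun a c => A (I a) (J' (b.succAbove c)))
        (abv := AbsoluteValue.abs) (x := (W : ℤ)) (fun a c => hA _ _)
      rw [Fintype.card_fin, nsmul_eq_mul] at this
      exact this
    rw [hw]
    show |(-1) ^ (b : ℕ) * _| ≤ _
    rw [abs_mul, abs_pow, abs_neg, abs_one, one_pow, one_mul]
    refine h1.trans ?_
    have hW' : (1 : ℤ) ≤ W := by exact_mod_cast hW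
    have h2 : (r.factorial : ℤ) ≤ L.factorial := by
      exact_mod_cast Nat.factorial_le hrL.le
    have h3 : (W : ℤ) ^ r ≤ (W : ℤ) ^ L := pow_le_pow_right₀ hW' hrL.le
    exact mul_le_mul h2 h3 (by positivity) (by positivity)
  obtain ⟨z, hz⟩ : ∃ z : Fin L → ℤ, z = fun j => ∑ b, if J' b = j then w b else 0 := ⟨_, rfl⟩
  have hzJ : ∀ b, z (J' b) = w b := by
    intro b
    rw [hz]
    show ∑ b', (if J' b' = J' b then w b' else 0) = w b
    rw [Finset.sum_eq_single b (fun b' _ hb' => if_neg fun h => hb' (hJ'i h))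
      (fun h => absurd (Finset.mem_univ b) h), if_pos rfl]
  have hz0 : ∀ j, (∀ b, J' b ≠ j) → z j = 0 := by
    intro j hj
    rw [hz]
    exact Finset.sum_eq_zero fun b _ => if_neg (hj b)
  refine ⟨z, ?_, ?_, ?_⟩
  · intro h
    have h1 := congrFun h (J' 0)
    rw [hzJ, hw] at h1
    apply hd
    have h2 : (-1 : ℤ) ^ ((0 : Fin (r + 1)) : ℕ) *
        Matrix.det (Matrix.of fun a c => A (I a) (J' ((0 : Fin (r + 1)).succAbove c))) = 0 := h1
    rw [Fin.val_zero, pow_zero, one_mul] at h2
    rw [← h2]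
    congr 1
    ext a c
    show A (I a) (J c) = A (I a) (J' ((0 : Fin (r + 1)).succAbove c))
    rw [Fin.succAbove_zero, hJ's]
  · intro i
    rw [← hrow i]
    have e1 : ∀ j, A i j * z j = ∑ b, if J' b = j then A i (J' b) * w b else 0 := by
      intro j
      rw [hz]
      show A i j * ∑ b, (if J' b = j then w b else 0) = _
      rw [Finset.mul_sum]
      refine Finset.sum_congr rfl fun b _ => ?_
      by_cases h : J' b = j
      · rw [if_pos h, if_pos h, h]
      · rw [if_neg h, if_neg h, mul_zero]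
    simp only [e1]
    rw [Finset.sum_comm]
    refine Finset.sum_congr rfl fun b _ => ?_
    rw [Finset.sum_ite_eq, if_pos (Finset.mem_univ _)]
  · intro j
    by_cases h : ∃ b, J' b = j
    · obtain ⟨b, rfl⟩ := h
      rw [hzJ]
      exact hwb b
    · push Not at h
      rw [hz0 j h, abs_zero]
      positivity

end Pool.Agent.LPW.H16
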